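import Pool.Agent.Helper30.L1.Conv

/-!
# A space of convergent sequences with a monotone Schauder basis
-/

namespace Pool.Helper30.L1

open Filter Topology
open scoped OnePoint

variable {E : Type*} [NormedAddCommGroup E] [NormedSpace ℝ E]

/-- Convergent sequences with a prescribed limit. -/
def mk (f : ℕ → E) (y : E) (h : Tendsto f atTop (𝓝 y)) : C(OnePoint ℕ, E) :=
  OnePoint.continuousMapMkNat f y h

@[simp] lemma mk_coe (f : ℕ → E) (y : E) (h : Tendsto f atTop (𝓝 y)) (n : ℕ) :
    mk f y h (n : OnePoint ℕ) = f n := rfl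

@[simp] lemma mk_infty (f : ℕ → E) (y : E) (h : Tendsto f atTop (𝓝 y)) :
    mk f y h ∞ = y := rfl

lemma ext_coe {z w : C(OnePoint ℕ, E)} (h : ∀ n : ℕ, z (n : OnePoint ℕ) = w (n : OnePoint ℕ)) :
    z = w := by
  have h1 : Tendsto (fun n : ℕ => z (n : OnePoint ℕ)) atTop (𝓝 (z ∞)) :=
    (OnePoint.continuous_iff_from_nat z).mp z.continuous
  have h2 : Tendsto (fun n : ℕ => w (n : OnePoint ℕ)) atTop (𝓝 (w ∞)) :=
    (OnePoint.continuous_iff_from_nat w).mp w.continuous
  ext j
  induction j using OnePoint.rec with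
  | infty =>
    refine tendsto_nhds_unique h1 ?_
    simp_rw [h]
    exact h2
  | coe j => exact h j

/-- Norm estimates may be checked at the finite coordinates. -/
lemma norm_le_of_coe {z : C(OnePoint ℕ, E)} {C : ℝ} (hC : 0 ≤ C)
    (h : ∀ n : ℕ, ‖z (n : OnePoint ℕ)‖ ≤ C) : ‖z‖ ≤ C := by
  rw [ContinuousMap.norm_le _ hC]
  intro j
  induction j using OnePoint.rec with
  | infty =>
    have h1 : Tendsto (fun n : ℕ => ‖z (n : OnePoint ℕ)‖) atTop (𝓝 ‖z ∞‖) :=
      ((OnePoint.continuous_iff_from_nat z).mp z.continuous).norm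
    exact le_of_tendsto h1 (Eventually.of_forall h)
  | coe j => exact h j

/-- Truncation. -/
noncomputable def trn (n : ℕ) (z : C(OnePoint ℕ, E)) : C(OnePoint ℕ, E) :=
  mk (fun j => z ((min j n : ℕ) : OnePoint ℕ)) (z (n : OnePoint ℕ))
    (tendsto_const_nhds.congr' (by
      filter_upwards [eventually_ge_atTop n] with j hj
      rw [min_eq_right hj]))

lemma trn_coe (n j : ℕ) (z : C(OnePoint ℕ, E)) :
    trn n z (j : OnePoint ℕ) = z ((min j n : ℕ) : OnePoint ℕ) := rfl

lemma norm_trn_le (n : ℕ) (z : C(OnePoint ℕ, E)) : ‖trn n z‖ ≤ ‖z‖ :=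
  norm_le_of_coe (norm_nonneg _) fun j => by rw [trn_coe]; exact z.norm_coe_le_norm _

lemma tendsto_trn (z : C(OnePoint ℕ, E)) : Tendsto (fun n => trn n z) atTop (𝓝 z) := by
  have h1 : Tendsto (fun n : ℕ => z (n : OnePoint ℕ)) atTop (𝓝 (z ∞)) :=
    (OnePoint.continuous_iff_from_nat z).mp z.continuous
  rw [Metric.tendsto_atTop]
  intro δ hδ
  obtain ⟨N, hN⟩ := Metric.tendsto_atTop.mp h1 (δ / 4) (by positivity)
  refine ⟨N, fun n hn => ?_⟩
  rw [dist_eq_norm]
  refine lt_of_le_of_lt (b := δ / 2) ?_ (by linarith)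
  refine norm_le_of_coe (by positivity) fun j => ?_
  rw [ContinuousMap.sub_apply, trn_coe]
  rcases le_total j n with h | h
  · rw [min_eq_left h, sub_self, norm_zero]; positivity
  · rw [min_eq_right h]
    have h2 := hN n hn
    have h3 := hN j (hn.trans h)
    have h4 := dist_triangle_right (z (n : OnePoint ℕ)) (z (j : OnePoint ℕ)) (z ∞)
    rw [dist_eq_norm] at h4
    linarith

/-- Differences. -/
noncomputable def dif : ℕ → (C(OnePoint ℕ, E) →L[ℝ] E)
  | 0 => ContinuousMap.evalCLM ℝ ((0 : ℕ) : OnePoint ℕ)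
  | n + 1 => ContinuousMap.evalCLM ℝ ((n + 1 : ℕ) : OnePoint ℕ) -
      ContinuousMap.evalCLM ℝ ((n : ℕ) : OnePoint ℕ)

lemma dif_zero (z : C(OnePoint ℕ, E)) : dif 0 z = z ((0 : ℕ) : OnePoint ℕ) := rfl

lemma dif_succ (n : ℕ) (z : C(OnePoint ℕ, E)) :
    dif (n + 1) z = z ((n + 1 : ℕ) : OnePoint ℕ) - z ((n : ℕ) : OnePoint ℕ) := rfl

lemma sum_dif (z : C(OnePoint ℕ, E)) (n j : ℕ) :
    ∑ i ∈ Finset.range (n + 1), (if i ≤ j then dif i z else 0) =
      z ((min j n : ℕ) : OnePoint ℕ) := by
  induction n with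
  | zero => simp [dif_zero]
  | succ n ih =>
    rw [Finset.sum_range_succ, ih]
    split_ifs with h
    · rw [dif_succ, min_eq_right (by omega : n ≤ j), min_eq_right h]
      abel
    · rw [min_eq_left (by omega : j ≤ n), min_eq_left (by omega : j ≤ n + 1), add_zero]

/-- The vectors of the basis. -/
noncomputable def bv (x : ℕ → E) (k : ℕ) : C(OnePoint ℕ, E) :=
  mk (fun j => if k ≤ j then x k else 0) (x k) (tendsto_const_nhds.congr' (by
    filter_upwards [eventually_ge_atTop k] with j hj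
    rw [if_pos hj]))

lemma bv_coe (x : ℕ → E) (k j : ℕ) :
    bv x k (j : OnePoint ℕ) = if k ≤ j then x k else 0 := rfl

lemma dif_bv (x : ℕ → E) (i k : ℕ) : dif i (bv x k) = if i = k then x k else 0 := by
  cases i with
  | zero =>
    rw [dif_zero, bv_coe]
    by_cases h : k = 0
    · subst h; simp
    · rw [if_neg (by omega), if_neg (by omega)]
  | succ i =>
    rw [dif_succ, bv_coe, bv_coe]
    by_cases h1 : k ≤ i
    · rw [if_pos (by omega), if_pos h1, if_neg (by omega), sub_self]
    · by_cases h2 : k ≤ i + 1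
      · rw [if_pos h2, if_neg h1, if_pos (by omega), sub_zero]
      · rw [if_neg h2, if_neg h1, if_neg (by omega), sub_zero]

/-- The space spanned by the basis. -/
noncomputable def YY (x : ℕ → E) : Submodule ℝ C(OnePoint ℕ, E) :=
  (Submodule.span ℝ (Set.range (bv x))).topologicalClosure

lemma bv_mem (x : ℕ → E) (k : ℕ) : bv x k ∈ YY x :=
  Submodule.le_topologicalClosure _ (Submodule.subset_span ⟨k, rfl⟩)

lemma trn_eq_sum (x : ℕ → E) (c : ℕ → ℝ) (z : C(OnePoint ℕ, E))
    (h : ∀ i, dif i z = c i • x i) (n : ℕ) :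
    trn n z = ∑ i ∈ Finset.range (n + 1), c i • bv x i := by
  apply ext_coe
  intro j
  rw [trn_coe, ← sum_dif z n j, ContinuousMap.coe_sum, Finset.sum_apply]
  refine Finset.sum_congr rfl fun i _ => ?_
  rw [ContinuousMap.smul_apply, bv_coe, h i]
  split_ifs <;> simp

lemma mem_YY (x : ℕ → E) (c : ℕ → ℝ) (z : C(OnePoint ℕ, E))
    (h : ∀ i, dif i z = c i • x i) : z ∈ YY x := by
  have h1 := tendsto_trn z
  refine (Submodule.isClosed_topologicalClosure _).mem_of_tendsto h1
    (Eventually.of_forall fun n => ?_)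
  rw [trn_eq_sum x c z h n]
  exact Submodule.sum_mem _ fun i _ => Submodule.smul_mem _ _ (bv_mem x i)

/-- Differences of elements of `YY x`. -/
lemma dif_mem (x : ℕ → E) (h : ℕ → StrongDual ℝ E) (hh : ∀ k, h k (x k) = 1)
    (y : C(OnePoint ℕ, E)) (hy : y ∈ YY x) (i : ℕ) : dif i y = h i (dif i y) • x i := by
  have hcl : IsClosed {y : C(OnePoint ℕ, E) | dif i y = h i (dif i y) • x i} := by
    apply isClosed_eq
    · exact (dif i).continuous
    · exact ((h i).continuous.comp (dif i).continuous).smul continuous_const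
  have hsub : (Submodule.span ℝ (Set.range (bv x)) : Set C(OnePoint ℕ, E)) ⊆
      {y : C(OnePoint ℕ, E) | dif i y = h i (dif i y) • x i} := by
    intro z hz
    refine Submodule.span_induction (p := fun z _ => dif i z = h i (dif i z) • x i)
      ?_ ?_ ?_ ?_ hz
    · rintro _ ⟨k, rfl⟩
      rw [dif_bv]
      split_ifs with hik
      · subst hik; rw [hh, one_smul]
      · simp
    · simp
    · intro a b _ _ ha hb
      rw [map_add, map_add, add_smul, ← ha, ← hb]
    · intro r a _ ha
      rw [map_smul, map_smul, smul_assoc, ← ha]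
  exact closure_minimal hsub hcl hy

theorem exists_basis (x : ℕ → E) (hx : ∀ k, x k ≠ 0) :
    ∃ b : SchauderBasis ℝ (YY x), ∀ n, ‖b.proj n‖ ≤ 1 := by
  have hex : ∀ k, ∃ h : StrongDual ℝ E, h (x k) = 1 := fun k =>
    SeparatingDual.exists_eq_one (R := ℝ) (hx k)
  choose h hh using hex
  have key : ∀ (y : YY x) (n : ℕ),
      ∑ i ∈ Finset.range (n + 1), (h i (dif i (y : C(OnePoint ℕ, E)))) • bv x i =
        trn n (y : C(OnePoint ℕ, E)) := fun y n =>
    (trn_eq_sum x (fun i => h i (dif i (y : C(OnePoint ℕ, E)))) y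
      (fun i => dif_mem x h hh y y.2 i) n).symm
  let b : SchauderBasis ℝ (YY x) :=
    { basis := fun k => ⟨bv x k, bv_mem x k⟩
      coord := fun k => (h k).comp ((dif k).comp (YY x).subtypeL)
      ortho := by
        intro i j
        change h i (dif i (bv x j)) = _
        rw [dif_bv]
        by_cases hij : i = j
        · subst hij
          simp [hh]
        · rw [if_neg hij, map_zero]
          simp [hij]
      expansion := by
        intro y
        rw [HasSum, SummationFilter.conditional_filter_eq_map_range, tendsto_map'_iff]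
        rw [← tendsto_add_atTop_iff_nat 1]
        rw [tendsto_subtype_rng]
        refine (tendsto_trn (y : C(OnePoint ℕ, E))).congr fun n => ?_
        rw [← key y n]
        simp }
  refine ⟨b, ?_⟩
  intro n
  cases n with
  | zero => rw [SchauderBasis.proj_zero]; simp
  | succ n =>
    refine ContinuousLinearMap.opNorm_le_bound _ zero_le_one fun y => ?_
    rw [one_mul, SchauderBasis.proj_apply]
    have h1 : ((∑ i ∈ Finset.range (n + 1), b.coord i y • b i : YY x) : C(OnePoint ℕ, E)) =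
        trn n (y : C(OnePoint ℕ, E)) := by
      rw [← key y n]
      simp only [Submodule.coe_sum, Submodule.coe_smul]
      rfl
    change ‖((∑ i ∈ Finset.range (n + 1), b.coord i y • b i : YY x) : C(OnePoint ℕ, E))‖ ≤ _
    rw [h1]
    exact norm_trn_le n _

theorem exists_embedding {X : Type*} [NormedAddCommGroup X] [NormedSpace ℝ X] (x : ℕ → E)
    (f : ℕ → StrongDual ℝ X) (i : X →L[ℝ] E) (C : ℝ) (hC : 0 ≤ C)
    (hb : ∀ n v, ‖∑ k ∈ Finset.range n, f k v • x k‖ ≤ C * ‖v‖)
    (h : ∀ v, Tendsto (fun n => ∑ k ∈ Finset.range n, f k v • x k) atTop (𝓝 (i v))) :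
    ∃ J : X →L[ℝ] YY x, ∀ v, (J v : C(OnePoint ℕ, E)) ∞ = i v := by
  have h' : ∀ v, Tendsto (fun n => ∑ k ∈ Finset.range (n + 1), f k v • x k) atTop (𝓝 (i v)) :=
    fun v => (tendsto_add_atTop_iff_nat 1).mpr (h v)
  have hmem : ∀ v, mk (fun n => ∑ k ∈ Finset.range (n + 1), f k v • x k) (i v) (h' v) ∈ YY x := by
    intro v
    refine mem_YY x (fun k => f k v) _ ?_
    intro k
    cases k with
    | zero => rw [dif_zero, mk_coe]; simp
    | succ k =>
      rw [dif_succ, mk_coe, mk_coe, Finset.sum_range_succ _ (k + 1)]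
      abel
  let L : X →ₗ[ℝ] YY x :=
    { toFun := fun v => ⟨mk (fun n => ∑ k ∈ Finset.range (n + 1), f k v • x k) (i v) (h' v),
        hmem v⟩
      map_add' := by
        intro v w
        apply Subtype.ext
        apply ext_coe
        intro n
        simp [add_smul, Finset.sum_add_distrib]
      map_smul' := by
        intro r v
        apply Subtype.ext
        apply ext_coe
        intro n
        simp [Finset.smul_sum, smul_smul] }
  have hL : ∀ v, ‖L v‖ ≤ C * ‖v‖ := by
    intro v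
    rw [Submodule.coe_norm]
    refine norm_le_of_coe (by positivity) fun n => ?_
    exact hb (n + 1) v
  exact ⟨L.mkContinuous C hL, fun v => rfl⟩

/-- Evaluation at infinity. -/
noncomputable def evi (x : ℕ → E) : YY x →L[ℝ] E :=
  (ContinuousMap.evalCLM ℝ (∞ : OnePoint ℕ) : C(OnePoint ℕ, E) →L[ℝ] E).comp (YY x).subtypeL

lemma norm_evi_le (x : ℕ → E) : ‖evi x‖ ≤ 1 := by
  refine ContinuousLinearMap.opNorm_le_bound _ zero_le_one fun y => ?_
  rw [one_mul]
  exact ContinuousMap.norm_coe_le_norm (y : C(OnePoint ℕ, E)) ∞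

end Pool.Helper30.L1
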