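import Pool.Agent.Helper30.L1.Tree

/-!
# The `ℓ₁`-index of the space of convergent sequences
-/

namespace Pool.Helper30.L1

open Ordinal Filter Topology
open scoped OnePoint

variable {E : Type*} [NormedAddCommGroup E] [NormedSpace ℝ E]

/-- The tree of finite sequences of unit vectors `K`-equivalent to the basis of `ℓ₁`. -/
def UT (E : Type*) [NormedAddCommGroup E] [NormedSpace ℝ E] (K : ℝ) : Set (List E) :=
  {l | (∀ x ∈ l, ‖x‖ = 1) ∧ ∀ c : List (ℝ × E), c.map Prod.snd = l → K⁻¹ * asum c ≤ ‖cmb c‖}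

section Lift

variable {Z : Type*} [NormedAddCommGroup Z] [NormedSpace ℝ Z]

lemma lift_cmb (ev : Z →ₗ[ℝ] E) (r : Z → ℝ) (l : List Z) (hr : ∀ z ∈ l, 1 ≤ r z)
    (c : List (ℝ × E)) (hc : c.map Prod.snd = l.map fun z => r z • ev z) :
    ∃ c' : List (ℝ × Z), c'.map Prod.snd = l ∧ ev (cmb c') = cmb c ∧ asum c ≤ asum c' := by
  induction l generalizing c with
  | nil =>
    have : c = [] := by simpa using hc
    subst this
    exact ⟨[], rfl, by simp, by simp⟩
  | cons z l ih =>
    match c, hc with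
    | [], hc => simp at hc
    | (a, x) :: c1, hc =>
      simp only [List.map_cons, List.cons.injEq] at hc
      obtain ⟨hx, hc1⟩ := hc
      obtain ⟨c', h1, h2, h3⟩ := ih (fun y hy => hr y (by simp [hy])) c1 hc1
      refine ⟨(a * r z, z) :: c', by simp [h1], ?_, ?_⟩
      · rw [cmb_cons, cmb_cons, map_add, h2, map_smul, hx, smul_smul]
      · rw [asum_cons, asum_cons]
        have h4 : |a| ≤ |a * r z| := by
          rw [abs_mul]
          have h5 := hr z (by simp)
          have h6 : 1 ≤ |r z| := h5.trans (le_abs_self _)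
          have := abs_nonneg a
          nlinarith
        exact add_le_add h4 h3

/-- A single coordinate. -/
lemma hasRank_comp (ev : Z →ₗ[ℝ] E) (hev : ∀ z, ‖ev z‖ ≤ ‖z‖) (ε : ℝ) (hε : 0 < ε)
    (ξ : Ordinal.{0}) (h : HasRank (UT E ε⁻¹) ξ) :
    HasRank (Tr ((normSeminorm ℝ E).comp ev) ε) ξ := by
  obtain ⟨ρ, h1, h2⟩ := h
  have key : ∀ l ∈ Tr ((normSeminorm ℝ E).comp ev) ε,
      l.map (fun z => ‖ev z‖⁻¹ • ev z) ∈ UT E ε⁻¹ := by
    intro l hl
    have hpos : ∀ z ∈ l, ε ≤ ‖ev z‖ := by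
      intro z hz
      obtain ⟨a, b, rfl⟩ := List.append_of_mem hz
      have h3 : [] ++ [z] ++ b ∈ Tr ((normSeminorm ℝ E).comp ev) ε := by
        have := Tr_drop [] a ([z] ++ b) (by simpa using hl)
        simpa using this
      have h4 := Tr_prefix _ _ h3
      have h5 := h4.2 [(1, z)] rfl
      simpa [asum_cons, cmb_cons, Seminorm.comp_apply] using h5
    refine ⟨?_, ?_⟩
    · intro x hx
      obtain ⟨z, hz, rfl⟩ := List.mem_map.mp hx
      have := hpos z hz
      rw [norm_smul, norm_inv, norm_norm, inv_mul_cancel₀ (by linarith)]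
    · intro c hc
      have hr : ∀ z ∈ l, 1 ≤ ‖ev z‖⁻¹ := by
        intro z hz
        have h3 := hpos z hz
        have h4 : ‖ev z‖ ≤ 1 := (hev z).trans (hl.1 z hz)
        exact (one_le_inv₀ (by linarith)).mpr h4
      obtain ⟨c', h3, h4, h5⟩ := lift_cmb ev (fun z => ‖ev z‖⁻¹) l hr c hc
      have h6 := hl.2 c' h3
      rw [Seminorm.comp_apply, coe_normSeminorm, h4] at h6
      rw [inv_inv]
      exact (mul_le_mul_of_nonneg_left h5 hε.le).trans h6
  refine ⟨fun l => ρ (l.map fun z => ‖ev z‖⁻¹ • ev z), fun l hl => h1 _ (key l hl), ?_⟩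
  intro l z hlz
  have h3 := key _ hlz
  have h4 : (l ++ [z]).map (fun z => ‖ev z‖⁻¹ • ev z) =
      l.map (fun z => ‖ev z‖⁻¹ • ev z) ++ [‖ev z‖⁻¹ • ev z] := by simp
  dsimp only
  rw [h4] at h3 ⊢
  exact h2 _ _ h3

/-- Finitely many coordinates. -/
lemma hasRank_finset {ι : Type*} (ev : ι → Z →ₗ[ℝ] E) (hev : ∀ i z, ‖ev i z‖ ≤ ‖z‖) (ε : ℝ)
    (hε : 0 < ε) (ξ : Ordinal.{0}) (h : HasRank (UT E ε⁻¹) ξ) (F : Finset ι) :
    HasRank (Tr (F.sup fun i => (normSeminorm ℝ E).comp (ev i)) ε) (ξ ^ F.card) := by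
  classical
  induction F using Finset.induction_on with
  | empty =>
    rw [Finset.sup_empty, Finset.card_empty, pow_zero]
    refine ⟨fun _ => 0, fun _ _ => zero_lt_one, ?_⟩
    intro l z hlz
    exfalso
    have h1 := hlz.2 (zer l ++ [(1, z)]) (by simp [snd_zer])
    rw [asum_append, asum_zer, Seminorm.bot_eq_zero] at h1
    simp [asum_cons] at h1
    linarith
  | insert i F hi ih =>
    rw [Finset.sup_insert, Finset.card_insert_of_notMem hi, pow_succ]
    exact hasRank_sup _ _ ε ξ _ (hasRank_comp (ev i) (hev i) ε hε ξ h) ih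

end Lift

/-- Evaluation at a point of `ℕ ∪ {∞}`. -/
noncomputable def evl (j : OnePoint ℕ) : C(OnePoint ℕ, E) →ₗ[ℝ] E :=
  (ContinuousMap.evalCLM ℝ j : C(OnePoint ℕ, E) →L[ℝ] E).toLinearMap

@[simp] lemma evl_apply (j : OnePoint ℕ) (z : C(OnePoint ℕ, E)) : evl j z = z j := rfl

lemma norm_evl_le (j : OnePoint ℕ) (z : C(OnePoint ℕ, E)) : ‖evl j z‖ ≤ ‖z‖ :=
  z.norm_coe_le_norm j

lemma exists_osc (η : ℝ) (hη : 0 < η) (us : List C(OnePoint ℕ, E)) :
    ∃ N : ℕ, ∀ u ∈ us, ∀ j : ℕ, N < j → ‖u (j : OnePoint ℕ) - u ∞‖ ≤ η := by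
  induction us with
  | nil => exact ⟨0, by simp⟩
  | cons u us ih =>
    obtain ⟨N, hN⟩ := ih
    have h1 : Tendsto (fun n : ℕ => u (n : OnePoint ℕ)) atTop (𝓝 (u ∞)) :=
      (OnePoint.continuous_iff_from_nat u).mp u.continuous
    obtain ⟨M, hM⟩ := Metric.tendsto_atTop.mp h1 η hη
    refine ⟨max N M, ?_⟩
    intro v hv j hj
    rcases List.mem_cons.mp hv with rfl | hv
    · have := hM j ((le_max_right N M).trans hj.le)
      rw [dist_eq_norm] at this
      exact this.le
    · exact hN v hv j ((le_max_left N M).trans_lt hj)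

/-- The set of coordinates attached to the extracted vectors. -/
noncomputable def FF (η : ℝ) (us : List C(OnePoint ℕ, E)) : Finset (OnePoint ℕ) :=
  open Classical in
  if h : 0 < η then insert ∞ ((Finset.range ((exists_osc η h us).choose + 1)).image
    fun j : ℕ => (j : OnePoint ℕ)) else ∅

lemma mem_FF_infty {η : ℝ} (hη : 0 < η) (us : List C(OnePoint ℕ, E)) : ∞ ∈ FF η us := by
  classical
  unfold FF
  rw [dif_pos hη]
  simp

lemma FF_spec {η : ℝ} (hη : 0 < η) (us : List C(OnePoint ℕ, E)) (j : OnePoint ℕ)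
    (hj : j ∉ FF η us) (u : C(OnePoint ℕ, E)) (hu : u ∈ us) : ‖u j - u ∞‖ ≤ η := by
  classical
  unfold FF at hj
  rw [dif_pos hη] at hj
  rw [Finset.mem_insert, not_or] at hj
  obtain ⟨h1, h2⟩ := hj
  induction j using OnePoint.rec with
  | infty => exact absurd rfl h1
  | coe j =>
    refine (exists_osc η hη us).choose_spec u hu j ?_
    by_contra h3
    apply h2
    rw [Finset.mem_image]
    exact ⟨j, by rw [Finset.mem_range]; omega, rfl⟩

/-- The gauge used by the machine. -/
noncomputable def gq (η : ℝ) (us : List C(OnePoint ℕ, E)) : Seminorm ℝ C(OnePoint ℕ, E) :=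
  (FF η us).sup fun j => (normSeminorm ℝ E).comp (evl j)

lemma gq_small {η : ℝ} {us : List C(OnePoint ℕ, E)} {u : C(OnePoint ℕ, E)}
    (h : gq η us u < η) (j : OnePoint ℕ) (hj : j ∈ FF η us) : ‖u j‖ < η := by
  have : (normSeminorm ℝ E).comp (evl j) u ≤ gq η us u :=
    Seminorm.le_finset_sup_apply (p := fun j => (normSeminorm ℝ E).comp (evl (E := E) j)) hj
  rw [Seminorm.comp_apply] at this
  exact lt_of_le_of_lt this h

/-- The sum of a list of vectors of which at most one is big. -/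
lemma norm_sum_le_of_pairwise (η : ℝ) (hη : 0 ≤ η) (vs : List E) (h1 : ∀ v ∈ vs, ‖v‖ ≤ 1)
    (h2 : vs.Pairwise fun v w => ‖v‖ ≤ η ∨ ‖w‖ ≤ η) :
    ‖vs.sum‖ ≤ 1 + η * vs.length := by
  induction vs with
  | nil => simp
  | cons v vs ih =>
    rw [List.pairwise_cons] at h2
    rw [List.sum_cons, List.length_cons]
    by_cases hv : ‖v‖ ≤ η
    · have := ih (fun w hw => h1 w (by simp [hw])) h2.2
      calc ‖v + vs.sum‖ ≤ ‖v‖ + ‖vs.sum‖ := norm_add_le _ _
        _ ≤ η + (1 + η * vs.length) := add_le_add hv this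
        _ = _ := by push_cast; ring
    · have h3 : ∀ w ∈ vs, ‖w‖ ≤ η := fun w hw => (h2.1 w hw).resolve_left hv
      have h4 : ∀ ws : List E, (∀ w ∈ ws, ‖w‖ ≤ η) → ‖ws.sum‖ ≤ η * ws.length := by
        intro ws hws
        induction ws with
        | nil => simp
        | cons w ws ih2 =>
          rw [List.sum_cons, List.length_cons]
          have := ih2 (fun x hx => hws x (by simp [hx]))
          calc ‖w + ws.sum‖ ≤ ‖w‖ + ‖ws.sum‖ := norm_add_le _ _
            _ ≤ η + η * ws.length := add_le_add (hws w (by simp)) this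
            _ = _ := by push_cast; ring
      calc ‖v + vs.sum‖ ≤ ‖v‖ + ‖vs.sum‖ := norm_add_le _ _
        _ ≤ 1 + η * vs.length := add_le_add (h1 v (by simp)) (h4 vs h3)
        _ ≤ _ := by push_cast; nlinarith

/-- At most `2 / ε` vectors are extracted. -/
lemma length_bound {ε : ℝ} (hε : 0 < ε) (l : List C(OnePoint ℕ, E))
    (s : List C(OnePoint ℕ, E) × List C(OnePoint ℕ, E))
    (hI : Inv (gq (ε / 4)) (ε / 4) (normSeminorm ℝ C(OnePoint ℕ, E)) ε l s)
    (hl : l ∈ Tr (normSeminorm ℝ C(OnePoint ℕ, E)) ε) : (s.1.length : ℝ) * ε ≤ 2 := by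
  have h1 : s.1 ∈ Tr (normSeminorm ℝ C(OnePoint ℕ, E)) ε := by
    have := hI.ext [] (by simpa using hl)
    exact Tr_prefix s.1 s.2 (by simpa using this)
  have hη : 0 < ε / 4 := by linarith
  have h2 : ∀ us : List C(OnePoint ℕ, E), asum (us.map fun u => ((1 : ℝ), u)) = us.length ∧
      cmb (us.map fun u => ((1 : ℝ), u)) = us.sum ∧
      (us.map fun u => ((1 : ℝ), u)).map Prod.snd = us := by
    intro us
    refine ⟨?_, ?_, ?_⟩
    · induction us with
      | nil => simp
      | cons u us ih => rw [List.map_cons, asum_cons, ih]; simp [add_comm]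
    · induction us with
      | nil => simp
      | cons u us ih => rw [List.map_cons, cmb_cons, ih]; simp
    · simp [Function.comp_def]
  have h3 := h1.2 _ (h2 s.1).2.2
  rw [(h2 s.1).1, (h2 s.1).2.1, coe_normSeminorm] at h3
  have h4 : ‖s.1.sum‖ ≤ 1 + ε / 2 * s.1.length := by
    rw [ContinuousMap.norm_le _ (by positivity)]
    intro j
    have h5 : (s.1.sum) j = (s.1.map fun u => u j).sum := by
      exact map_list_sum (evl (E := E) j) s.1
    rw [h5]
    have h6 := norm_sum_le_of_pairwise (ε / 2) (by positivity) (s.1.map fun u => u j)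
      (by
        intro v hv
        obtain ⟨u, hu, rfl⟩ := List.mem_map.mp hv
        exact (norm_evl_le j u).trans (h1.1 u hu))
      (by
        rw [List.pairwise_map]
        -- all decompositions
        have h7 : ∀ (a : List C(OnePoint ℕ, E)) (u : C(OnePoint ℕ, E)) (b : List _),
            s.1 = a ++ [u] ++ b → ∀ v ∈ a, ‖v j‖ ≤ ε / 2 ∨ ‖u j‖ ≤ ε / 2 := by
          intro a u b hab v hv
          have h8 := hI.small a u b hab
          by_cases hj : j ∈ FF (ε / 4) a
          · right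
            have := gq_small h8 j hj
            linarith
          · left
            obtain ⟨a1, a2, rfl⟩ := List.append_of_mem hv
            have h9 := hI.small a1 v (a2 ++ [u] ++ b) (by rw [hab]; simp)
            have h10 := gq_small h9 ∞ (mem_FF_infty hη a1)
            have h11 := FF_spec hη (a1 ++ v :: a2) j hj v (by simp)
            have h12 : ‖v j‖ ≤ ‖v j - v ∞‖ + ‖v ∞‖ := by
              simpa using norm_add_le (v j - v ∞) (v ∞)
            linarith
        have h13 : ∀ us : List C(OnePoint ℕ, E), ∀ b, s.1 = us ++ b →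
            us.Pairwise fun v w => ‖v j‖ ≤ ε / 2 ∨ ‖w j‖ ≤ ε / 2 := by
          intro us
          induction us using List.reverseRecOn with
          | nil => intro b _; exact List.Pairwise.nil
          | append_singleton us u ih =>
            intro b hb
            rw [List.pairwise_append]
            refine ⟨ih ([u] ++ b) (by rw [hb]; simp), List.pairwise_singleton _ _, ?_⟩
            intro v hv w hw
            rw [List.mem_singleton] at hw
            subst hw
            exact h7 us w b hb v hv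
        exact h13 s.1 [] (by simp))
    rw [List.length_map] at h6
    exact h6
  have h14 : (0 : ℝ) ≤ s.1.length := Nat.cast_nonneg _
  nlinarith

/-- **The index of the space of convergent sequences.** -/
theorem hasRank_conv (ε : ℝ) (hε : 0 < ε) (ξ : Ordinal.{0}) (h : HasRank (UT E (ε / 4)⁻¹) ξ) :
    ∃ r : ℕ, HasRank (Tr (normSeminorm ℝ C(OnePoint ℕ, E)) ε) (ξ ^ ω * r) := by
  have hη : 0 < ε / 4 := by linarith
  obtain ⟨r, hr⟩ := exists_nat_gt (2 / ε)
  have hξ : 0 < ξ := by
    obtain ⟨ρ, h1, _⟩ := h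
    exact lt_of_le_of_lt (zero_le) (h1 [] ⟨by simp, by
      intro c hc
      have : c = [] := by simpa using hc
      subst this
      simp⟩)
  have hκ : ∀ n : ℕ, ξ ^ n ≤ ξ ^ (ω : Ordinal.{0}) := by
    intro n
    rw [← opow_natCast]
    exact opow_le_opow_right hξ (natCast_lt_omega0 n).le
  have hrk : ∀ us : List C(OnePoint ℕ, E), HasRank (Tr (gq (ε / 4) us) (ε / 4))
      (ξ ^ (FF (ε / 4) us).card) := by
    intro us
    unfold gq
    exact hasRank_finset (Z := C(OnePoint ℕ, E)) (ι := OnePoint ℕ) (fun j => evl j)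
      (fun j z => norm_evl_le j z) (ε / 4) hη ξ h (FF (ε / 4) us)
  choose ρ hρ1 hρ2 using hrk
  have hlen : ∀ l s, Inv (gq (ε / 4)) (ε / 4) (normSeminorm ℝ C(OnePoint ℕ, E)) ε l s →
      l ∈ Tr (normSeminorm ℝ C(OnePoint ℕ, E)) ε → s.1.length < r := by
    intro l s hI hl
    have h1 := length_bound hε l s hI hl
    have h2 : (s.1.length : ℝ) ≤ 2 / ε := by rwa [le_div_iff₀ hε]
    exact_mod_cast h2.trans_lt hr
  set κ : Ordinal.{0} := ξ ^ (ω : Ordinal.{0}) with hκdef
  have hbd : ∀ (n : ℕ) (b : Ordinal.{0}), b < κ → κ * (n : Ordinal.{0}) + b < κ * ((n + 1 : ℕ)) := by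
    intro n b hb
    calc κ * (n : Ordinal.{0}) + b < κ * (n : Ordinal.{0}) + κ := by gcongr
      _ = κ * ((n + 1 : ℕ)) := by rw [Nat.cast_succ, mul_add, mul_one]
  refine ⟨r, fun l => κ * ((r - 1 - (state (gq (ε / 4)) (ε / 4) l).1.length : ℕ) : Ordinal.{0}) +
    ρ (state (gq (ε / 4)) (ε / 4) l).1 (state (gq (ε / 4)) (ε / 4) l).2, ?_, ?_⟩
  · intro l hl
    have hI := inv_state (gq (ε / 4)) (ε / 4) (normSeminorm ℝ C(OnePoint ℕ, E)) ε l hl
    have h1 := hlen l _ hI hl
    have h2 := (hρ1 _ _ hI.mem).trans_le (hκ _)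
    refine (hbd _ _ h2).trans_le ?_
    gcongr
    omega
  · intro l z hlz
    have hl := Tr_prefix l [z] hlz
    have hI := inv_state (gq (ε / 4)) (ε / 4) (normSeminorm ℝ C(OnePoint ℕ, E)) ε l hl
    obtain ⟨hI', hcase⟩ := step_cases _ _ _ ε l _ z hI hlz
    simp only [state_append]
    rcases hcase with ⟨h1, h2⟩ | ⟨u, h2⟩
    · rw [h2]
      dsimp only
      have := hρ2 _ _ _ h1
      gcongr
    · have h3 := hlen _ _ hI' hlz
      rw [h2] at h3 ⊢
      dsimp only at h3 ⊢
      have h5 := (hρ1 ((state (gq (ε / 4)) (ε / 4) l).1 ++ [u]) [] (Tr_nil _ _)).trans_le (hκ _)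
      refine (hbd _ _ h5).trans_le ?_
      refine le_trans ?_ (le_self_add)
      gcongr
      rw [List.length_append, List.length_singleton] at h3 ⊢
      omega

end Pool.Helper30.L1
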