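import Mathlib

/-!
# Refining a sequence of finite rank operators to partial sums of rank one operators
-/

namespace Pool.Helper30.L1

open Filter Topology

variable {X E : Type*} [NormedAddCommGroup X] [NormedSpace ℝ X] [NormedAddCommGroup E]
  [NormedSpace ℝ E]

/-- The sum of a list of rank one operators. -/
noncomputable def rs (L : List (StrongDual ℝ X × E)) (v : X) : E :=
  (L.map fun p => p.1 v • p.2).sum

@[simp] lemma rs_nil (v : X) : rs ([] : List (StrongDual ℝ X × E)) v = 0 := rfl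

lemma rs_append (L M : List (StrongDual ℝ X × E)) (v : X) : rs (L ++ M) v = rs L v + rs M v := by
  simp [rs]

lemma rs_cons (p : StrongDual ℝ X × E) (L : List (StrongDual ℝ X × E)) (v : X) :
    rs (p :: L) v = p.1 v • p.2 + rs L v := by
  simp [rs]

/-- A finite rank operator is a sum of rank one operators. -/
lemma exists_list (A : X →L[ℝ] E) [FiniteDimensional ℝ A.range] :
    ∃ B : List (StrongDual ℝ X × E), (∀ p ∈ B, p.2 ≠ 0) ∧ ∀ v, rs B v = A v := by
  classical
  let b := Module.finBasis ℝ A.range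
  let A' : X →L[ℝ] A.range := A.codRestrict A.range (fun v => ⟨v, rfl⟩)
  refine ⟨(List.finRange (Module.finrank ℝ A.range)).map fun j =>
    (((LinearMap.toContinuousLinearMap (b.coord j)).comp A' : StrongDual ℝ X), (b j : E)), ?_, ?_⟩
  · intro p hp
    obtain ⟨j, -, rfl⟩ := List.mem_map.mp hp
    intro h
    exact b.ne_zero j (Subtype.ext h)
  · intro v
    have h1 : ∑ j, (b.coord j (A' v)) • (b j) = A' v := by
      simp
    have h2 := congrArg (Subtype.val) h1
    rw [Submodule.coe_sum] at h2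
    have h3 : ((A' v : A.range) : E) = A v := rfl
    rw [← h3, ← h2, rs, List.map_map, ← List.ofFn_eq_map, List.sum_ofFn]
    rfl

/-- scaling of a list of rank one operators -/
noncomputable def sc (r : ℝ) (B : List (StrongDual ℝ X × E)) : List (StrongDual ℝ X × E) :=
  B.map fun p => (r • p.1, p.2)

lemma rs_sc (r : ℝ) (B : List (StrongDual ℝ X × E)) (v : X) : rs (sc r B) v = r • rs B v := by
  induction B with
  | nil => simp [sc]
  | cons p B ih =>
    have : sc r (p :: B) = (r • p.1, p.2) :: sc r B := rfl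
    rw [this, rs_cons, rs_cons, ih, smul_add, smul_apply, smul_assoc]

/-- The total size of the list. -/
noncomputable def sz (B : List (StrongDual ℝ X × E)) : ℝ := (B.map fun p => ‖p.1‖ * ‖p.2‖).sum

lemma sz_cons (p : StrongDual ℝ X × E) (B : List (StrongDual ℝ X × E)) :
    sz (p :: B) = ‖p.1‖ * ‖p.2‖ + sz B := by simp [sz]

lemma sz_nonneg (B : List (StrongDual ℝ X × E)) : 0 ≤ sz B := by
  induction B with
  | nil => simp [sz]
  | cons p B ih => rw [sz_cons]; positivity

lemma sz_append (B D : List (StrongDual ℝ X × E)) : sz (B ++ D) = sz B + sz D := by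
  simp [sz]

lemma norm_rs_le (B : List (StrongDual ℝ X × E)) (v : X) : ‖rs B v‖ ≤ sz B * ‖v‖ := by
  induction B with
  | nil => simp [sz]
  | cons p B ih =>
    rw [rs_cons, sz_cons, add_mul]
    refine (norm_add_le _ _).trans (add_le_add ?_ ih)
    rw [norm_smul]
    have := p.1.le_opNorm v
    calc ‖p.1 v‖ * ‖p.2‖ ≤ (‖p.1‖ * ‖v‖) * ‖p.2‖ := by gcongr
      _ = _ := by ring

lemma sz_sc (r : ℝ) (hr : 0 ≤ r) (B : List (StrongDual ℝ X × E)) : sz (sc r B) = r * sz B := by
  induction B with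
  | nil => simp [sz, sc]
  | cons p B ih =>
    have : sc r (p :: B) = (r • p.1, p.2) :: sc r B := rfl
    rw [this, sz_cons, sz_cons, ih, norm_smul, Real.norm_of_nonneg hr]
    ring

/-- The first terms of many copies of `B`. -/
lemma initial_copies (B : List (StrongDual ℝ X × E)) (n : ℕ) (s t : List (StrongDual ℝ X × E))
    (h : s ++ t = (List.replicate n B).flatten) :
    ∃ q : ℕ, q ≤ n ∧ ∃ s' t' : List (StrongDual ℝ X × E), s' ++ t' = B ∧
      ∀ v, rs s v = (q : ℝ) • rs B v + rs s' v := by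
  induction n generalizing s t with
  | zero =>
    have h1 : s = [] := by
      simp only [List.replicate_zero, List.flatten_nil, List.append_eq_nil_iff] at h
      exact h.1
    subst h1
    exact ⟨0, le_rfl, [], B, rfl, by simp⟩
  | succ n ih =>
    rw [List.replicate_succ, List.flatten_cons] at h
    rcases List.append_eq_append_iff.mp h with ⟨a, ha1, ha2⟩ | ⟨a, ha1, ha2⟩
    · exact ⟨0, by omega, s, a, ha1.symm, by simp⟩
    · obtain ⟨q, hq, s', t', h1, h2⟩ := ih a t ha2.symm
      refine ⟨q + 1, by omega, s', t', h1, ?_⟩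
      intro v
      rw [ha1, rs_append, h2 v]
      push_cast
      rw [add_smul, one_smul]
      abel

lemma rs_copies (B : List (StrongDual ℝ X × E)) (n : ℕ) (v : X) :
    rs (List.replicate n B).flatten v = (n : ℝ) • rs B v := by
  induction n with
  | zero => simp
  | succ n ih =>
    rw [List.replicate_succ, List.flatten_cons, rs_append, ih]
    push_cast
    rw [add_smul, one_smul]
    abel

/-- One block. -/
lemma exists_block_list (A : X →L[ℝ] E) [FiniteDimensional ℝ A.range] (e₀ : E) (he₀ : e₀ ≠ 0)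
    (δ : ℝ) (hδ : 0 < δ) : ∃ L : List (StrongDual ℝ X × E), L ≠ [] ∧ (∀ p ∈ L, p.2 ≠ 0) ∧
      (∀ v, rs L v = A v) ∧ ∀ s t, s ++ t = L → ∀ v, ‖rs s v‖ ≤ ‖A v‖ + δ * ‖v‖ := by
  obtain ⟨B₀, hB1, hB2⟩ := exists_list A
  set B : List (StrongDual ℝ X × E) := (0, e₀) :: B₀ with hBdef
  have hBA : ∀ v, rs B v = A v := by
    intro v
    rw [hBdef, rs_cons, hB2]
    simp
  obtain ⟨N, hN⟩ := exists_nat_gt (sz B / δ)
  have hNpos : (0 : ℝ) < N := lt_of_le_of_lt (by have := sz_nonneg B; positivity) hN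
  have hN0 : N ≠ 0 := by
    rintro rfl
    simp at hNpos
  refine ⟨(List.replicate N (sc (1 / N : ℝ) B)).flatten, ?_, ?_, ?_, ?_⟩
  · intro h
    rw [List.flatten_eq_nil_iff] at h
    have := h (sc (1 / N : ℝ) B) (by rw [List.mem_replicate]; exact ⟨hN0, rfl⟩)
    simp [sc, hBdef] at this
  · intro p hp
    rw [List.mem_flatten] at hp
    obtain ⟨l, hl1, hl2⟩ := hp
    rw [List.mem_replicate] at hl1
    rw [hl1.2, sc, List.mem_map] at hl2
    obtain ⟨p', hp', rfl⟩ := hl2
    rw [hBdef, List.mem_cons] at hp'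
    rcases hp' with rfl | hp'
    · exact he₀
    · exact hB1 p' hp'
  · intro v
    rw [rs_copies, rs_sc, hBA, smul_smul, mul_one_div, div_self hNpos.ne', one_smul]
  · intro s t hst v
    obtain ⟨q, hq, s', t', h1, h2⟩ := initial_copies _ N s t hst
    rw [h2 v, rs_sc, hBA, smul_smul]
    have h3 : ‖((q : ℝ) * (1 / N)) • A v‖ ≤ ‖A v‖ := by
      rw [norm_smul, Real.norm_of_nonneg (by positivity)]
      have : (q : ℝ) * (1 / N) ≤ 1 := by
        rw [mul_one_div, div_le_one hNpos]
        exact_mod_cast hq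
      have h0 := norm_nonneg (A v)
      nlinarith
    have h4 : ‖rs s' v‖ ≤ δ * ‖v‖ := by
      refine (norm_rs_le s' v).trans ?_
      have h5 : sz s' ≤ 1 / N * sz B := by
        rw [← sz_sc _ (by positivity), ← h1, sz_append]
        linarith [sz_nonneg t']
      have h6 : 1 / N * sz B ≤ δ := by
        rw [div_lt_iff₀ hδ] at hN
        rw [one_div, inv_mul_le_iff₀ hNpos]
        linarith
      have h7 := norm_nonneg v
      nlinarith
    exact (norm_add_le _ _).trans (add_le_add h3 h4)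

/-- **Refinement.** -/
theorem exists_rank_one (T : ℕ → X →L[ℝ] E) (hT : ∀ n, FiniteDimensional ℝ (T n).range)
    (i : X →L[ℝ] E) (e₀ : E) (he₀ : e₀ ≠ 0) (C : ℝ) (hC : ∀ n, ‖T n‖ ≤ C)
    (h : ∀ v, Tendsto (fun n => T n v) atTop (𝓝 (i v))) :
    ∃ (f : ℕ → StrongDual ℝ X) (x : ℕ → E), (∀ k, x k ≠ 0) ∧
      (∀ n v, ‖∑ k ∈ Finset.range n, f k v • x k‖ ≤ (3 * C + 1) * ‖v‖) ∧
      ∀ v, Tendsto (fun n => ∑ k ∈ Finset.range n, f k v • x k) atTop (𝓝 (i v)) := by
  have hC0 : 0 ≤ C := (norm_nonneg _).trans (hC 0)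
  -- the shifted sequence
  let T' : ℕ → X →L[ℝ] E := fun n => match n with | 0 => 0 | n + 1 => T n
  have hT'0 : T' 0 = 0 := rfl
  have hT' : ∀ n, FiniteDimensional ℝ (T' n).range := by
    intro n
    cases n with
    | zero =>
      rw [hT'0]
      have : (0 : X →L[ℝ] E).range = ⊥ := by
        ext y
        simp
      rw [this]
      infer_instance
    | succ n => exact hT n
  have hC' : ∀ n, ‖T' n‖ ≤ C := by
    intro n
    cases n with
    | zero => rw [hT'0, norm_zero]; exact hC0
    | succ n => exact hC n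
  have h' : ∀ v, Tendsto (fun n => T' n v) atTop (𝓝 (i v)) := fun v =>
    (tendsto_add_atTop_iff_nat 1).mp (h v)
  have hD : ∀ n, FiniteDimensional ℝ (T' (n + 1) - T' n).range := by
    intro n
    haveI := hT' n
    haveI := hT' (n + 1)
    have h1 : (T' (n + 1) - T' n).range ≤ (T' (n + 1)).range ⊔ (T' n).range := by
      rintro _ ⟨v, rfl⟩
      exact Submodule.sub_mem _ (Submodule.mem_sup_left ⟨v, rfl⟩)
        (Submodule.mem_sup_right ⟨v, rfl⟩)
    exact Submodule.finiteDimensional_of_le h1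
  have hex : ∀ n : ℕ, ∃ L : List (StrongDual ℝ X × E), L ≠ [] ∧ (∀ p ∈ L, p.2 ≠ 0) ∧
      (∀ v, rs L v = (T' (n + 1) - T' n) v) ∧
      ∀ s t, s ++ t = L → ∀ v, ‖rs s v‖ ≤ ‖(T' (n + 1) - T' n) v‖ + 1 / ((n : ℝ) + 1) * ‖v‖ := by
    intro n
    haveI := hD n
    exact exists_block_list _ e₀ he₀ (1 / ((n : ℝ) + 1)) (by positivity)
  choose L hL1 hL2 hL3 hL4 using hex
  -- the concatenation
  let M : ℕ → List (StrongDual ℝ X × E) := fun n => Nat.rec [] (fun n m => m ++ L n) n
  have hM0 : M 0 = [] := rfl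
  have hMs : ∀ n, M (n + 1) = M n ++ L n := fun n => rfl
  have hMT : ∀ n v, rs (M n) v = T' n v := by
    intro n v
    induction n with
    | zero => rw [hM0, hT'0]; simp
    | succ n ih => rw [hMs, rs_append, ih, hL3]; simp
  have hMlen : ∀ n, n ≤ (M n).length := by
    intro n
    induction n with
    | zero => simp
    | succ n ih =>
      rw [hMs, List.length_append]
      have := List.length_pos_iff.mpr (hL1 n)
      omega
  have hMx : ∀ n, ∀ p ∈ M n, p.2 ≠ 0 := by
    intro n
    induction n with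
    | zero => intro p hp; rw [hM0] at hp; simp at hp
    | succ n ih =>
      intro p hp
      rw [hMs, List.mem_append] at hp
      rcases hp with hp | hp
      · exact ih p hp
      · exact hL2 n p hp
  have hMext : ∀ m n, m ≤ n → ∃ t, M n = M m ++ t := by
    intro m n hmn
    induction n, hmn using Nat.le_induction with
    | base => exact ⟨[], by simp⟩
    | succ n _ ih =>
      obtain ⟨t, ht⟩ := ih
      exact ⟨t ++ L n, by rw [hMs, ht, List.append_assoc]⟩
  let a : ℕ → StrongDual ℝ X × E := fun k => (M (k + 1)).getD k (0, e₀)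
  have hak : ∀ n k, k < (M n).length → (M n)[k]? = some (a k) := by
    intro n k hk
    have hk' : k < (M (k + 1)).length := lt_of_lt_of_le (Nat.lt_succ_self k) (hMlen (k + 1))
    have h1 : a k = (M (k + 1))[k] := by
      simp only [a, List.getD_eq_getElem?_getD, List.getElem?_eq_getElem hk', Option.getD_some]
    rcases le_total n (k + 1) with hn | hn
    · obtain ⟨t, ht⟩ := hMext _ _ hn
      rw [h1, ← List.getElem?_eq_getElem hk', ht, List.getElem?_append_left hk]
    · obtain ⟨t, ht⟩ := hMext _ _ hn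
      rw [h1, ← List.getElem?_eq_getElem hk', ht, List.getElem?_append_left hk']
  have hsum : ∀ n N v, N ≤ (M n).length →
      ∑ k ∈ Finset.range N, (a k).1 v • (a k).2 = rs ((M n).take N) v := by
    intro n N v hN
    induction N with
    | zero => simp
    | succ N ih =>
      rw [Finset.sum_range_succ, ih (by omega), List.take_add_one, hak n N (by omega), rs_append]
      simp [rs]
  -- locating an index
  have hloc : ∀ N, ∃ n, (M n).length ≤ N ∧ N < (M (n + 1)).length := by
    intro N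
    have hex : ∃ n, N < (M (n + 1)).length := ⟨N, lt_of_lt_of_le (Nat.lt_succ_self N) (hMlen _)⟩
    classical
    refine ⟨Nat.find hex, ?_, Nat.find_spec hex⟩
    rcases Nat.eq_zero_or_pos (Nat.find hex) with h0 | h0
    · rw [h0, hM0]; simp
    · have := Nat.find_min hex (Nat.sub_one_lt_of_lt h0)
      rw [Nat.sub_add_cancel h0] at this
      exact not_lt.mp this
  have hval : ∀ N n v, (M n).length ≤ N → N < (M (n + 1)).length →
      ‖∑ k ∈ Finset.range N, (a k).1 v • (a k).2 - T' n v‖ ≤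
        ‖(T' (n + 1) - T' n) v‖ + 1 / ((n : ℝ) + 1) * ‖v‖ := by
    intro N n v h1 h2
    rw [hsum (n + 1) N v h2.le, hMs, List.take_append, List.take_of_length_le h1, rs_append,
      hMT, add_sub_cancel_left]
    exact hL4 n _ _ (List.take_append_drop _ _) v
  refine ⟨fun k => (a k).1, fun k => (a k).2, ?_, ?_, ?_⟩
  · intro k
    have hk' : k < (M (k + 1)).length := lt_of_lt_of_le (Nat.lt_succ_self k) (hMlen (k + 1))
    exact hMx (k + 1) _ (List.mem_of_getElem? (hak (k + 1) k hk'))
  · intro N v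
    obtain ⟨n, h1, h2⟩ := hloc N
    have h3 := hval N n v h1 h2
    have h4 : ‖T' n v‖ ≤ C * ‖v‖ :=
      ((T' n).le_opNorm v).trans (mul_le_mul_of_nonneg_right (hC' n) (norm_nonneg v))
    have h5 : ‖T' (n + 1) v‖ ≤ C * ‖v‖ :=
      ((T' (n + 1)).le_opNorm v).trans (mul_le_mul_of_nonneg_right (hC' (n + 1)) (norm_nonneg v))
    have h6 : ‖(T' (n + 1) - T' n) v‖ ≤ C * ‖v‖ + C * ‖v‖ := by
      rw [sub_apply]
      exact (norm_sub_le _ _).trans (add_le_add h5 h4)
    have h7 : 1 / ((n : ℝ) + 1) * ‖v‖ ≤ ‖v‖ := by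
      have h8 : 1 / ((n : ℝ) + 1) ≤ 1 := by
        rw [div_le_one (by positivity)]
        have : (0 : ℝ) ≤ n := Nat.cast_nonneg n
        linarith
      have h9 := norm_nonneg v
      nlinarith
    have h10 : ‖∑ k ∈ Finset.range N, (a k).1 v • (a k).2‖ ≤
        ‖∑ k ∈ Finset.range N, (a k).1 v • (a k).2 - T' n v‖ + ‖T' n v‖ := by
      simpa using norm_add_le (∑ k ∈ Finset.range N, (a k).1 v • (a k).2 - T' n v) (T' n v)
    linarith
  · intro v
    have hg : Tendsto (fun n : ℕ => ‖(T' (n + 1) - T' n) v‖ + 1 / ((n : ℝ) + 1) * ‖v‖ +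
        ‖T' n v - i v‖) atTop (𝓝 0) := by
      have h1 : Tendsto (fun n : ℕ => ‖T' n v - i v‖) atTop (𝓝 0) :=
        tendsto_iff_norm_sub_tendsto_zero.mp (h' v)
      have h2 : Tendsto (fun n : ℕ => (T' (n + 1) - T' n) v) atTop (𝓝 0) := by
        have := ((tendsto_add_atTop_iff_nat 1).mpr (h' v)).sub (h' v)
        rw [sub_self] at this
        exact this
      have h3 : Tendsto (fun n : ℕ => 1 / ((n : ℝ) + 1) * ‖v‖) atTop (𝓝 0) := by
        have := (tendsto_one_div_add_atTop_nhds_zero_nat (𝕜 := ℝ)).mul_const ‖v‖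
        rwa [zero_mul] at this
      have := (h2.norm.add h3).add h1
      rw [norm_zero, add_zero, add_zero] at this
      exact this
    rw [Metric.tendsto_atTop]
    intro ε hε
    obtain ⟨n₀, hn₀⟩ := (Metric.tendsto_atTop.mp hg) ε hε
    refine ⟨(M n₀).length, fun N hN => ?_⟩
    obtain ⟨n, h1, h2⟩ := hloc N
    have h3 : n₀ ≤ n := by
      by_contra hlt
      obtain ⟨t, ht⟩ := hMext (n + 1) n₀ (by omega)
      rw [ht, List.length_append] at hN
      omega
    have h4 := hval N n v h1 h2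
    have h5 := hn₀ n h3
    rw [Real.dist_eq, sub_zero] at h5
    have h6 := le_abs_self (‖(T' (n + 1) - T' n) v‖ + 1 / ((n : ℝ) + 1) * ‖v‖ +
        ‖T' n v - i v‖)
    rw [dist_eq_norm]
    have h7 : ‖∑ k ∈ Finset.range N, (a k).1 v • (a k).2 - i v‖ ≤
        ‖∑ k ∈ Finset.range N, (a k).1 v • (a k).2 - T' n v‖ + ‖T' n v - i v‖ := by
      simpa using norm_add_le (∑ k ∈ Finset.range N, (a k).1 v • (a k).2 - T' n v) (T' n v - i v)
    linarith

end Pool.Helper30.L1
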