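import Mathlib

/-!
# Trees of finite `ℓ₁`-sequences with respect to a seminorm, and their ranks
-/

namespace Pool.Helper30.L1

open Ordinal

variable {Z : Type*} [NormedAddCommGroup Z] [NormedSpace ℝ Z]

/-- The linear combination of a list of (coefficient, vector) pairs. -/
def cmb (c : List (ℝ × Z)) : Z := (c.map fun p => p.1 • p.2).sum

/-- The sum of the absolute values of the coefficients. -/
def asum {Z : Type*} (c : List (ℝ × Z)) : ℝ := (c.map fun p => |p.1|).sum

@[simp] lemma cmb_nil : cmb ([] : List (ℝ × Z)) = 0 := rfl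
@[simp] lemma asum_nil : asum ([] : List (ℝ × Z)) = 0 := rfl

lemma cmb_append (c d : List (ℝ × Z)) : cmb (c ++ d) = cmb c + cmb d := by
  simp [cmb]

lemma asum_append (c d : List (ℝ × Z)) : asum (c ++ d) = asum c + asum d := by
  simp [asum]

lemma cmb_cons (p : ℝ × Z) (c : List (ℝ × Z)) : cmb (p :: c) = p.1 • p.2 + cmb c := by
  simp [cmb]

lemma asum_cons (p : ℝ × Z) (c : List (ℝ × Z)) : asum (p :: c) = |p.1| + asum c := by
  simp [asum]

lemma asum_nonneg (c : List (ℝ × Z)) : 0 ≤ asum c := by
  induction c with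
  | nil => simp
  | cons p c ih => rw [asum_cons]; positivity

/-- Multiply all coefficients. -/
def scl (b : ℝ) (c : List (ℝ × Z)) : List (ℝ × Z) := c.map fun p => (b * p.1, p.2)

lemma cmb_scl (b : ℝ) (c : List (ℝ × Z)) : cmb (scl b c) = b • cmb c := by
  induction c with
  | nil => simp [scl]
  | cons p c ih =>
    have : scl b (p :: c) = (b * p.1, p.2) :: scl b c := rfl
    rw [this, cmb_cons, cmb_cons, ih, smul_add, mul_smul]

lemma asum_scl (b : ℝ) (c : List (ℝ × Z)) : asum (scl b c) = |b| * asum c := by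
  induction c with
  | nil => simp [scl]
  | cons p c ih =>
    have : scl b (p :: c) = (b * p.1, p.2) :: scl b c := rfl
    rw [this, asum_cons, asum_cons, ih, mul_add, abs_mul]

lemma snd_scl (b : ℝ) (c : List (ℝ × Z)) : (scl b c).map Prod.snd = c.map Prod.snd := by
  simp [scl, Function.comp_def]

lemma norm_cmb_le (c : List (ℝ × Z)) (h : ∀ p ∈ c, ‖p.2‖ ≤ 1) : ‖cmb c‖ ≤ asum c := by
  induction c with
  | nil => simp
  | cons p c ih =>
    rw [cmb_cons, asum_cons]
    have h1 : ‖p.1 • p.2‖ ≤ |p.1| := by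
      rw [norm_smul, Real.norm_eq_abs]
      have := h p (by simp)
      have h0 := abs_nonneg p.1
      nlinarith
    have h2 := ih (fun q hq => h q (by simp [hq]))
    exact (norm_add_le _ _).trans (add_le_add h1 h2)

lemma seminorm_cmb_le (q : Seminorm ℝ Z) (δ : ℝ) (c : List (ℝ × Z))
    (h : ∀ p ∈ c, q p.2 ≤ δ) : q (cmb c) ≤ δ * asum c := by
  induction c with
  | nil => simp
  | cons p c ih =>
    rw [cmb_cons, asum_cons]
    have h1 : q (p.1 • p.2) ≤ δ * |p.1| := by
      rw [map_smul_eq_mul, Real.norm_eq_abs]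
      have := h p (by simp)
      have h0 := abs_nonneg p.1
      nlinarith
    have h2 := ih (fun r hr => h r (by simp [hr]))
    calc q (p.1 • p.2 + cmb c) ≤ q (p.1 • p.2) + q (cmb c) := map_add_le_add q _ _
      _ ≤ δ * |p.1| + δ * asum c := add_le_add h1 h2
      _ = δ * (|p.1| + asum c) := by ring

/-- Finite sequences of vectors of norm at most one which are `ε`-separated in the `ℓ₁` sense
with respect to the seminorm `P`. -/
def Tr (P : Seminorm ℝ Z) (ε : ℝ) : Set (List Z) :=
  {l | (∀ z ∈ l, ‖z‖ ≤ 1) ∧ ∀ c : List (ℝ × Z), c.map Prod.snd = l → ε * asum c ≤ P (cmb c)}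

lemma Tr_nil (P : Seminorm ℝ Z) (ε : ℝ) : [] ∈ Tr P ε := by
  refine ⟨by simp, ?_⟩
  intro c hc
  have : c = [] := by simpa using hc
  subst this
  simp

/-- zero coefficients -/
def zer (v : List Z) : List (ℝ × Z) := v.map fun z => (0, z)

lemma cmb_zer (v : List Z) : cmb (zer v) = 0 := by
  induction v with
  | nil => rfl
  | cons z v ih =>
    have : zer (z :: v) = (0, z) :: zer v := rfl
    rw [this, cmb_cons, ih]; simp

lemma asum_zer (v : List Z) : asum (zer v) = 0 := by
  induction v with
  | nil => rfl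
  | cons z v ih =>
    have : zer (z :: v) = (0, z) :: zer v := rfl
    rw [this, asum_cons, ih]; simp

lemma snd_zer (v : List Z) : (zer v).map Prod.snd = v := by
  simp [zer, Function.comp_def]

/-- Dropping a block. -/
lemma Tr_drop {P : Seminorm ℝ Z} {ε : ℝ} (s v t : List Z) (h : s ++ v ++ t ∈ Tr P ε) :
    s ++ t ∈ Tr P ε := by
  refine ⟨fun z hz => h.1 z ?_, ?_⟩
  · simp only [List.mem_append] at hz ⊢
    tauto
  · intro c hc
    obtain ⟨cs, ct, rfl, h1, h2⟩ := List.map_eq_append_iff.mp hc
    have h3 := h.2 (cs ++ zer v ++ ct) (by simp [h1, h2, snd_zer])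
    rw [asum_append, asum_append, asum_zer, cmb_append, cmb_append, cmb_zer] at h3
    rw [asum_append, cmb_append]
    simpa using h3

lemma Tr_prefix {P : Seminorm ℝ Z} {ε : ℝ} (s t : List Z) (h : s ++ t ∈ Tr P ε) :
    s ∈ Tr P ε := by
  have h1 := Tr_drop s t [] (by simpa using h)
  simpa using h1

/-- Replacing a block of the sequence by one normalised combination of it. -/
lemma Tr_block {P : Seminorm ℝ Z} {ε : ℝ} (s v t : List Z) (h : s ++ v ++ t ∈ Tr P ε)
    (c : List (ℝ × Z)) (hc : c.map Prod.snd = v) (hc1 : asum c = 1) :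
    s ++ [cmb c] ++ t ∈ Tr P ε := by
  refine ⟨?_, ?_⟩
  · intro z hz
    simp only [List.mem_append, List.mem_singleton] at hz
    rcases hz with (hz | rfl) | hz
    · exact h.1 z (by simp [hz])
    · have h2 : ∀ p ∈ c, ‖p.2‖ ≤ 1 := by
        intro p hp
        apply h.1
        have : p.2 ∈ v := by rw [← hc]; exact List.mem_map_of_mem hp
        simp [this]
      have := norm_cmb_le c h2
      rwa [hc1] at this
    · exact h.1 z (by simp [hz])
  · intro d hd
    obtain ⟨d1, dt, rfl, h1, h2⟩ := List.map_eq_append_iff.mp hd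
    obtain ⟨ds, du, rfl, h3, h4⟩ := List.map_eq_append_iff.mp h1
    obtain ⟨b, rfl⟩ : ∃ b : ℝ, du = [(b, cmb c)] := by
      obtain ⟨p, hp1, hp2⟩ := List.map_eq_singleton_iff.mp h4
      refine ⟨p.1, ?_⟩
      rw [hp1, ← hp2]
    have h5 := h.2 (ds ++ scl b c ++ dt) (by simp [h3, h2, snd_scl, hc])
    rw [asum_append, asum_append, asum_scl, cmb_append, cmb_append, cmb_scl, hc1] at h5
    rw [asum_append, asum_append, cmb_append, cmb_append]
    simpa [asum_cons, cmb_cons] using h5

/-- The tree `T` has rank at most `ξ` (the empty sequence is counted). -/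
def HasRank (T : Set (List Z)) (ξ : Ordinal.{0}) : Prop :=
  ∃ ρ : List Z → Ordinal.{0}, (∀ l ∈ T, ρ l < ξ) ∧ ∀ l z, l ++ [z] ∈ T → ρ (l ++ [z]) < ρ l

/-- If `w ++ [z]` fails to be in the tree then some normalised block is small. -/
lemma exists_block {q : Seminorm ℝ Z} {ε : ℝ} {v : List Z} (hv : ∀ z ∈ v, ‖z‖ ≤ 1)
    (h : v ∉ Tr q ε) : ∃ c : List (ℝ × Z), c.map Prod.snd = v ∧ asum c = 1 ∧ q (cmb c) < ε := by
  have h1 : ∃ c : List (ℝ × Z), c.map Prod.snd = v ∧ q (cmb c) < ε * asum c := by
    by_contra hne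
    push Not at hne
    exact h ⟨hv, hne⟩
  obtain ⟨c, hc, hq⟩ := h1
  have h2 : 0 ≤ q (cmb c) := apply_nonneg q _
  have h3 : 0 < asum c := by
    rcases (asum_nonneg c).lt_or_eq with h | h
    · exact h
    · rw [← h, mul_zero] at hq
      exact absurd hq (not_lt.mpr h2)
  refine ⟨scl (asum c)⁻¹ c, by rw [snd_scl, hc], ?_, ?_⟩
  · rw [asum_scl, abs_of_pos (inv_pos.mpr h3), inv_mul_cancel₀ h3.ne']
  · rw [cmb_scl, map_smul_eq_mul, Real.norm_eq_abs, abs_of_pos (inv_pos.mpr h3)]
    rw [inv_mul_lt_iff₀ h3, mul_comm]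
    exact hq

section Machine

/-- One step of the machine with parameter: the seminorm used depends on the extracted list. -/
noncomputable def step (q : List Z → Seminorm ℝ Z) (ε : ℝ) (s : List Z × List Z) (z : Z) :
    List Z × List Z :=
  open Classical in
  if s.2 ++ [z] ∈ Tr (q s.1) ε then (s.1, s.2 ++ [z])
  else if h : ∃ c : List (ℝ × Z), c.map Prod.snd = s.2 ++ [z] ∧ asum c = 1 ∧
      q s.1 (cmb c) < ε then (s.1 ++ [cmb h.choose], [])
  else s

/-- The state of the machine after reading a list. -/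
noncomputable def state (q : List Z → Seminorm ℝ Z) (ε : ℝ) (l : List Z) : List Z × List Z :=
  l.foldl (step q ε) ([], [])

lemma state_append (q : List Z → Seminorm ℝ Z) (ε : ℝ) (l : List Z) (z : Z) :
    state q ε (l ++ [z]) = step q ε (state q ε l) z := by
  simp [state, List.foldl_append]

/-- The invariant of the machine. -/
structure Inv (q : List Z → Seminorm ℝ Z) (ε : ℝ) (P : Seminorm ℝ Z) (δ : ℝ) (l : List Z)
    (s : List Z × List Z) : Prop where
  ext : ∀ t, l ++ t ∈ Tr P δ → s.1 ++ s.2 ++ t ∈ Tr P δ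
  mem : s.2 ∈ Tr (q s.1) ε
  small : ∀ (a : List Z) (u : Z) (b : List Z), s.1 = a ++ [u] ++ b → q a u < ε

/-- The step either prolongs the current block or extracts a new vector. -/
lemma step_cases (q : List Z → Seminorm ℝ Z) (ε : ℝ) (P : Seminorm ℝ Z) (δ : ℝ) (l : List Z)
    (s : List Z × List Z) (z : Z) (hI : Inv q ε P δ l s) (hz : l ++ [z] ∈ Tr P δ) :
    Inv q ε P δ (l ++ [z]) (step q ε s z) ∧
      ((s.2 ++ [z] ∈ Tr (q s.1) ε ∧ step q ε s z = (s.1, s.2 ++ [z])) ∨
        ∃ u, step q ε s z = (s.1 ++ [u], [])) := by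
  classical
  by_cases h : s.2 ++ [z] ∈ Tr (q s.1) ε
  · have hs : step q ε s z = (s.1, s.2 ++ [z]) := by
      unfold step
      rw [if_pos h]
    refine ⟨?_, Or.inl ⟨h, hs⟩⟩
    rw [hs]
    refine ⟨?_, h, hI.small⟩
    intro t ht
    have := hI.ext ([z] ++ t) (by simpa using ht)
    simpa using this
  · have hn : ∀ y ∈ s.2 ++ [z], ‖y‖ ≤ 1 := by
      intro y hy
      have h1 := hI.ext [z] hz
      apply h1.1
      simp only [List.mem_append, List.mem_singleton] at hy ⊢
      tauto
    have hex := exists_block hn h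
    have hs : step q ε s z = (s.1 ++ [cmb hex.choose], []) := by
      unfold step
      rw [if_neg h, dif_pos hex]
    refine ⟨?_, Or.inr ⟨_, hs⟩⟩
    obtain ⟨h1, h2, h3⟩ := hex.choose_spec
    rw [hs]
    refine ⟨?_, Tr_nil _ _, ?_⟩
    · intro t ht
      have h4 := hI.ext ([z] ++ t) (by simpa using ht)
      have h5 := Tr_block s.1 (s.2 ++ [z]) t (by simpa using h4) _ h1 h2
      simpa using h5
    · intro a u b hab
      simp only at hab
      rcases List.eq_nil_or_concat b with rfl | ⟨b', y, rfl⟩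
      · simp only [List.append_nil] at hab
        have := List.append_inj' hab rfl
        obtain ⟨h6, h7⟩ := this
        subst h6
        have h8 : cmb hex.choose = u := by simpa using h7
        rw [← h8]
        exact h3
      · rw [List.concat_eq_append, ← List.append_assoc] at hab
        have := List.append_inj' hab rfl
        exact hI.small a u b' this.1

lemma inv_nil (q : List Z → Seminorm ℝ Z) (ε : ℝ) (P : Seminorm ℝ Z) (δ : ℝ) :
    Inv q ε P δ [] ([], []) := by
  refine ⟨by simp, Tr_nil _ _, ?_⟩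
  intro a u b h
  simp at h

lemma inv_state (q : List Z → Seminorm ℝ Z) (ε : ℝ) (P : Seminorm ℝ Z) (δ : ℝ) (l : List Z)
    (hl : l ∈ Tr P δ) : Inv q ε P δ l (state q ε l) := by
  induction l using List.reverseRecOn with
  | nil => exact inv_nil q ε P δ
  | append_singleton l z ih =>
    rw [state_append]
    exact (step_cases q ε P δ l _ z (ih (Tr_prefix l [z] hl)) hl).1

end Machine

/-- **Two seminorms.** -/
theorem hasRank_sup (p q : Seminorm ℝ Z) (ε : ℝ) (α β : Ordinal.{0})
    (hp : HasRank (Tr p ε) α) (hq : HasRank (Tr q ε) β) : HasRank (Tr (p ⊔ q) ε) (β * α) := by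
  obtain ⟨ρp, hp1, hp2⟩ := hp
  obtain ⟨ρq, hq1, hq2⟩ := hq
  -- the extracted vectors form an element of the tree of `p`
  have key : ∀ l s, Inv (fun _ => q) ε (p ⊔ q) ε l s → l ∈ Tr (p ⊔ q) ε → s.1 ∈ Tr p ε := by
    intro l s hI hl
    have h1 : s.1 ∈ Tr (p ⊔ q) ε := by
      have := hI.ext [] (by simpa using hl)
      exact Tr_prefix s.1 s.2 (by simpa using this)
    refine ⟨h1.1, ?_⟩
    intro c hc
    have h2 := h1.2 c hc
    rcases (asum_nonneg c).lt_or_eq with h0 | h0
    · have h3 : ∀ r ∈ c, q r.2 < ε := by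
        intro r hr
        have : r.2 ∈ s.1 := by rw [← hc]; exact List.mem_map_of_mem hr
        obtain ⟨a, b, hab⟩ := List.append_of_mem this
        exact hI.small a r.2 b (by simpa using hab)
      have h4 : q (cmb c) < ε * asum c := by
        -- strictness
        have hne : c ≠ [] := by
          rintro rfl
          simp at h0
        obtain ⟨δ, hδ1, hδ2⟩ : ∃ δ < ε, ∀ r ∈ c, q r.2 ≤ δ := by
          clear h2 h0 hc
          induction c with
          | nil => exact absurd rfl hne
          | cons r c ih =>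
            by_cases hc' : c = []
            · subst hc'
              exact ⟨q r.2, h3 r (by simp), by simp⟩
            · obtain ⟨δ, h5, h6⟩ := ih (fun x hx => h3 x (by simp [hx])) hc'
              refine ⟨max δ (q r.2), max_lt h5 (h3 r (by simp)), ?_⟩
              intro x hx
              rcases List.mem_cons.mp hx with rfl | hx
              · exact le_max_right _ _
              · exact (h6 x hx).trans (le_max_left _ _)
        have h5 := seminorm_cmb_le q δ c hδ2
        nlinarith
      rw [Seminorm.sup_apply] at h2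
      rcases le_max_iff.mp h2 with h | h
      · exact h
      · exact absurd h (not_le.mpr h4)
    · rw [← h0, mul_zero]
      exact apply_nonneg p _
  have hbd : ∀ a b : Ordinal.{0}, a < α → b < β → β * a + b < β * α := by
    intro a b ha hb
    calc β * a + b < β * a + β := by gcongr
      _ = β * (Order.succ a) := by rw [Order.succ_eq_add_one, mul_add, mul_one]
      _ ≤ β * α := by
          gcongr
          exact Order.succ_le_of_lt ha
  refine ⟨fun l => β * ρp (state (fun _ => q) ε l).1 + ρq (state (fun _ => q) ε l).2, ?_, ?_⟩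
  · intro l hl
    have hI := inv_state (fun _ => q) ε (p ⊔ q) ε l hl
    exact hbd _ _ (hp1 _ (key l _ hI hl)) (hq1 _ hI.mem)
  · intro l z hlz
    have hl := Tr_prefix l [z] hlz
    have hI := inv_state (fun _ => q) ε (p ⊔ q) ε l hl
    obtain ⟨hI', hcase⟩ := step_cases (fun _ => q) ε (p ⊔ q) ε l _ z hI hlz
    simp only [state_append]
    rcases hcase with ⟨h1, h2⟩ | ⟨u, h2⟩
    · rw [h2]
      dsimp only
      have := hq2 _ _ h1
      gcongr
    · have h3 := key _ _ hI' hlz
      rw [h2] at h3 ⊢
      dsimp only at h3 ⊢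
      have h4 := hp2 _ _ h3
      have h5 : ρq [] < β := hq1 _ (Tr_nil _ _)
      calc β * ρp ((state (fun _ => q) ε l).1 ++ [u]) + ρq []
          < β * ρp ((state (fun _ => q) ε l).1 ++ [u]) + β := by gcongr
        _ = β * (Order.succ (ρp ((state (fun _ => q) ε l).1 ++ [u]))) := by
            rw [Order.succ_eq_add_one, mul_add, mul_one]
        _ ≤ β * ρp (state (fun _ => q) ε l).1 := by
            gcongr
            exact Order.succ_le_of_lt h4
        _ ≤ _ := le_self_add

end Pool.Helper30.L1
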